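import Mathlib
import Pool.Agent.H361R2.PP.Cor7

/-! The distribution of `(p_{n+1} - p_n) / log n` (here `p_n = Nat.nth Nat.Prime (n - 1)`):
all lower densities of `A_c` and of its complement are positive, and the values approximated with
positive upper density have lower Lebesgue density at least one quarter. -/

open Classical in
theorem Pool.Agent.Results.MP_3499c5_nt.SupportOfDistribution.result :
    (∀ x : ℝ, 0 < x → ∃ c : ℝ, 0 < c ∧ ∃ N₀ : ℕ, ∀ N : ℕ, N₀ ≤ N →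
      c * N ≤ (((Finset.Icc 2 N).filter (fun n : ℕ =>
        ((Nat.nth Nat.Prime n : ℝ) - Nat.nth Nat.Prime (n - 1)) / Real.log n < x)).card : ℝ) ∧
      c * N ≤ (((Finset.Icc 2 N).filter (fun n : ℕ =>
        x ≤ ((Nat.nth Nat.Prime n : ℝ) - Nat.nth Nat.Prime (n - 1)) / Real.log n)).card : ℝ)) ∧
    ∃ C : ℝ, ∀ T : ℝ, 0 ≤ T → ENNReal.ofReal ((T - C) / 4) ≤
      MeasureTheory.volume ({x : ℝ | 0 ≤ x ∧ ∀ ε : ℝ, 0 < ε → ∃ c : ℝ, 0 < c ∧
        ∀ N₀ : ℕ, ∃ N : ℕ, N₀ ≤ N ∧ c * N ≤ ({n : ℕ | n ∈ Finset.Icc 2 N ∧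
          |((Nat.nth Nat.Prime n : ℝ) - Nat.nth Nat.Prime (n - 1)) / Real.log n - x| < ε}.ncard
            : ℝ)} ∩ Set.Icc 0 T) := by
  refine ⟨fun x hx => ?_, Pool.Agent.H361R2.PP.leb'⟩
  obtain ⟨c1, hc1, N1, h1⟩ := Pool.Agent.H361R2.PP.small_gaps x hx
  obtain ⟨c2, hc2, N2, h2⟩ := Pool.Agent.H361R2.PP.large_gaps x
  refine ⟨min c1 c2, lt_min hc1 hc2, N1 + N2, fun N hN => ⟨?_, ?_⟩⟩
  · exact (mul_le_mul_of_nonneg_right (min_le_left _ _) (Nat.cast_nonneg N)).trans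
      (h1 N (by omega))
  · exact (mul_le_mul_of_nonneg_right (min_le_right _ _) (Nat.cast_nonneg N)).trans
      (h2 N (by omega))
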